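import Pool.Agent.Helper27.VF.Goals

set_option autoImplicit false

namespace Pool.Agent.Helper8.VF

open Pool.Agent.Helper27.VF

universe u

/-- TOC. Components outside the torso have finitely many neighbours. -/
theorem toc (hP : PthStmt.{u}) (hA : ToaStmt.{u}) (hO : OrbStmt.{u}) (hF : FrdStmt.{u}) :
    TocStmt.{u} := by
  intro A W _ _ G G₀ w p hS k hk htf z hz
  obtain ⟨-, F, hFfin, -, hFall⟩ := hA A W G G₀ w p hS k hk htf
  obtain ⟨-, -, -, hpres⟩ := hO A W G G₀ w p hS k hk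
  obtain ⟨-, hfree⟩ := hF A W G G₀ w p hS k hk htf
  -- `z` is in `d.2`
  have hz' : ∃ d ∈ DD A G p k, z ∈ d.2 := by
    by_contra hcon
    apply hz
    left
    intro d hd hzd
    exact hcon ⟨d, hd, hzd⟩
  obtain ⟨d, hd, hzd⟩ := hz'
  have hcut : IsCut G d := hd.1.1
  -- paths outside stay in `d.2`
  have hstay : ∀ z', Out G (Kp A G p k) z z' → z' ∈ d.2 := by
    intro z' h
    induction h with
    | refl => exact hzd
    | @tail a b _ hab ih =>
      by_contra hb2
      by_cases hb1 : b ∈ d.1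
      · exact hcut.no _ hb1 _ ih hab.1.symm
      · exact hab.2 (Or.inr ⟨d, hd, mem_sep.2 ⟨hb1, hb2⟩⟩)
  -- the points of the torso in `d.2`
  have hfin : (Kp A G p k ∩ d.2).Finite := by
    have hg : ∀ f : W, {g : A | g ∈ BB A G p k ∧ g • f ∈ d.2}.Finite := by
      intro f
      have hC := hP A W G G₀ w p hS k hk w f
      refine Set.Finite.of_injOn (f := fun g : A => tr g⁻¹ d)
        (t := {c | c ∈ SS A G p k ∧ w ∉ c.2 ∧ f ∉ c.1}) ?_ ?_ hC
      · rintro g ⟨hg, hgf⟩
        have he : tr g⁻¹ d ∈ DD A G p k := hpres g⁻¹ ((BB A G p k).inv_mem hg) d hd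
        refine ⟨he.1, ?_, ?_⟩
        · intro hw
          have h2 : Inn p (1 : A) (tr g⁻¹ d).2 := by
            apply fact1' hS he.1.1
            rwa [one_smul]
          exact (inn_snd hS he.1.1).1 h2 he.2.1
        · intro hf1
          refine he.1.1.disj f hf1 ?_
          show (g⁻¹)⁻¹ • f ∈ d.2
          rwa [inv_inv]
      · rintro g - h - hgh
        have h1 : tr (h * g⁻¹) d = d := by
          rw [← tr_tr]
          have : tr g⁻¹ d = tr h⁻¹ d := hgh
          rw [this, tr_tr, mul_inv_cancel, tr_one]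
        have h2 := hfree _ d hd h1
        exact (mul_inv_eq_one.1 h2).symm
    have hsub : Kp A G p k ∩ d.2 ⊆
        ⋃ f ∈ F, (fun g : A => g • f) '' {g : A | g ∈ BB A G p k ∧ g • f ∈ d.2} := by
      rintro x ⟨hx1, hx2⟩
      obtain ⟨g, hg, f, hf, rfl⟩ := hFall x hx1
      simp only [Set.mem_iUnion]
      exact ⟨f, hf, g, ⟨hg, hx2⟩, rfl⟩
    exact (hFfin.biUnion fun f _ => (hg f).image _).subset hsub
  refine (hcut.fin.union hfin).subset ?_
  rintro y ⟨hyK, z', hz', hadj⟩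
  have hz2 := hstay z' hz'
  have hy1 : y ∉ d.1 := fun hy1 => hcut.no _ hy1 _ hz2 hadj.symm
  by_cases hy2 : y ∈ d.2
  · exact Or.inr ⟨hyK, hy2⟩
  · exact Or.inl (mem_sep.2 ⟨hy1, hy2⟩)

end Pool.Agent.Helper8.VF
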